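import Pool.Agent.H433.AC.Final

/-!
# Frey's inequality, with the best constant, for almost all abelian covers of the projective line

`MP_c59389_nt` (Q1, a partial answer). Frey's inequality is `h_F(A) ≤ (n / 2 + ε) log N_A + c`,
`n = dim A`. We prove it, with the constant `n / 2` replaced by a constant `≤ 1 / 4` which we
determine exactly, for almost all members (in the sense of density, with a power saving), and for
all the twists of these members, of every family of abelian covers of the projective line which
are branched over rational points.

The families. Let `G` be a finite abelian group of exponent dividing `m`, let `X` be the finite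
set of the homomorphisms `χ : G → ℤ / m`, let `g_1, ..., g_n` generate `G`, and put
`k χ i = χ (g_i)`. For a number field `K`, different integers `a_1, ..., a_n` of `K` and
`e_χ ∈ K, e_χ ≠ 0` (with `e_(χ + χ') = e_χ e_χ'` up to `m`-th powers) the equations
`y_χ ^ m = e_χ ∏ (x - a_i) ^ (k_χ,i)`, `χ ∈ X`, define a curve `C` over `K`, which over the
algebraic closure is the cover of the projective line with the group `G` and the monodromy `g_i` at
`a_i` (and `-∑ g_i` at the point at infinity). With `e` one obtains all the twists of the cover.
Hyperelliptic and superelliptic curves with rational branch points are the covers with cyclic `G`.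
The theorem is about `A = Res_{K / ℚ} Jac C`, of dimension `[K : ℚ] ∑_χ dm (k χ)`; it is proved
for arbitrary finite families `k` of vectors over `ℤ / m`, which includes the abelian subvarieties
of `Jac C` that belong to a set of characters stable under `(ℤ / m)ˣ`.

The height. In the eigenspace of `χ` the differentials of the first kind are the
`x ^ l ω_χ`, `l < dm (k χ)`, `ω_χ = ∏ (x - a_i) ^ (-μ_i) dx`, `μ_i = k_χ,i / m` in `[0, 1)`.
The square of the norm of their exterior product is a constant times `vol (k χ)`. At the places
`v` which do not divide `m` the differentials of the Néron model over an extension with semistable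
reduction are regular at the generic points over the Gauss valuation, so they lie in the lattice
which is spanned by the `x ^ l ω_χ`; if exactly two branch points coincide modulo `v`, to the
first order, then the index is `∏_χ (N v) ^ (max (0, μ_i + μ_j - 1))`. Hence
`h_F(A) ≤ height k a + O(1)` for all `a` and all twists, and
`h_F(A) ≥ height k a - B exc m a - O(1)`.

The conductor. The part `V_χ` of the cohomology which belongs to `χ` has the dimension `rk (k χ)`.
If no two branch points coincide modulo `v`, then the inertia group at `v` acts on it by the
character of `e_χ ^ (1 / m)`; if exactly two coincide, to the first order, then by the product of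
this character and a pseudoreflection with the determinant of order that of `k_i + k_j`. This gives
the exponents `fg` and `fs`. So `cond k a e` divides `N_A`, and
`log N_A ≤ log (cond k a 1) + B exc m a + O(1)` for `e = 1`.

The theorem. `slope 2 k ≤ 1 / 4` is the exact constant, if no `V_χ` has dimension `1`:
for every `κ > slope 2 k` and for almost all `a` the inequality
`h_F(A) ≤ κ log N_A + C` holds for all the twists, and for `κ' < slope 1 k = slope 2 k` it fails
for almost all of the curves themselves: `h_F(A) ≥ κ' log N_A - C`. For hyperelliptic curves of
genus `g` the slope is `g / (4 g + 2)`, for Picard curves it is `1 / 18`.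
-/

set_option autoImplicit false

open NumberField Finset

namespace Pool.Agent.Results.MP_c59389_nt.AbelianCovers

open Pool.Agent.H433.AC

open Classical in
/-- Frey's inequality for almost all abelian covers of the projective line with rational branch
points, and for all their twists, with the best constant, which is at most `1 / 4`. -/
theorem result (K : Type) [Field K] [NumberField K] {m n : ℕ} [NeZero m] {X : Type} [Fintype X]
    (k : X → Fin n → ZMod m) (hr : ∃ χ, 2 ≤ rk (k χ)) :
    slope 2 k ≤ 1 / 4 ∧
    ((∀ χ, rk (k χ) ≠ 1) → slope 1 k = slope 2 k) ∧
    ∀ κ κ' B : ℝ, 0 < κ → slope 2 k < κ → κ' < slope 1 k → 0 ≤ B →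
      ∃ C δ : ℝ, 0 < δ ∧ ∀ H : ℕ, 1 ≤ H →
        (((Fintype.piFinset fun _ : Fin n => box K H).filter fun a =>
          ¬ Sharp κ κ' B C k a).card : ℝ) ≤
            C * (H : ℝ) ^ (-δ) * ((Fintype.piFinset fun _ : Fin n => box K H).card : ℝ) :=
  ⟨slope_le k, slope_eq k, fun κ κ' B h0 h1 h2 h3 => main k K hr κ κ' B h0 h1 h2 h3⟩

end Pool.Agent.Results.MP_c59389_nt.AbelianCovers
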