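import Pool.Agent.H433.CR.Main

/-!
# The exact slope in Frey's inequality for 100 per cent of the hyperelliptic curves
# `e y ^ 2 = φ(x) - t`, for all `e` and for all the polynomials `φ` with rational critical points, in
# every genus and over every number field

`MP_c59389_nt` (Q1, a partial answer for every dimension). Frey's conjecture for an abelian variety
`A` of dimension `n` over `ℚ` is `h_F(A) ≤ (n / 2 + ε) log N_A + c` for the stable Faltings height. We
prove it, with the much smaller slope `g / (8 g + 4) + ε < 1 / 8` instead of `n / 2`, for 100 per cent
of the Jacobians `A` of the curves `e y ^ 2 = φ(x) - t` of genus `g` over `ℚ` (and for the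
restrictions of scalars, if the curves are defined over a number field `K`), for all the twists `e`
at the same time and uniformly for all the polynomials `φ` of degree `2 g + 1` or `2 g + 2` with
rational critical points; and we prove that this slope is the best possible one, for 100 per cent of
the curves. The Galois group of the Weierstrass points is the full symmetric group for 100 per cent
of the `t`. (In `MP_c59389_nt`, AbelianCovers the branch points are rational.)

The curves. `φ ∈ O_K[x]` is monic of degree `m + 1`, `m = 2 g` or `m = 2 g + 1`, its derivative is
`(m + 1) (x - c_1) ... (x - c_m)` with `c_i ∈ O_K`, the critical values `φ(c_i)` are different, and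
for all the embeddings of `K` in `ℂ` we have `|c_i| ^ (m + 1) ≤ A T` and `|φ(0)| ≤ A T`
(`Crit m A T φ c`). Examples: every `φ` with rational critical points and different critical values
if `T ≥ T_0(φ)`; or all the `φ` with `φ(0) = 0` and with `c_i ∈ m! O_K`,
`|c_i| ≤ (A T) ^ {1 / (m + 1)}` and with different critical values. `t` is in the box of the elements
of `O_K` whose coordinates in an integral basis are at most `T` (`box K T`). The map `(c, t) ↦ φ - t`,
`φ(0) = 0`, from the space of dimension `m + 1` to the space of all the monic polynomials of degree
`m + 1` is finite and surjective over the algebraic closure. Let `f = φ - t` and `D = f.discr`.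

The height. `vol g F` is, up to a constant which depends on `g` only, the square of the `L²` norm of
`∧_{i < g} x ^ i dx / y` on the Jacobian of `y ^ 2 = F(x)`. `height g f 1` is the sum of the
`- 1 / 2 log (vol g (σ f))` over the embeddings `σ` of `K` in `ℂ`. It is an upper bound for
`[K : ℚ] h_F(J) = h_F(A)`, `A` the restriction of scalars from `K` to `ℚ` of the Jacobian `J` (and of
its twists, which have the same stable height), up to an additive constant: the differentials of the
Néron model are contained in the Weierstrass lattice. The two lattices are equal at the places which
do not divide `2` and divide `D` at most once, so that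
`height g f 1 - B exc f - B ≤ h_F(A) ≤ height g f 1 + B` with a constant `B` which depends on `g` and
`K` only, where `exc f` is the logarithm of the norm of `D` without the primes which divide it exactly
once.

The conductor. `cond g f e` is the part of the conductor of `J_e`, the Jacobian of
`e y ^ 2 = f(x)`, at the places `v` which do not divide `2` and divide `D` at most once. The exponent
is `2 g` if the order of `e` is odd. If the order of `e` is even, then it is `1` if `v` divides `D`
(one node), and `0` if not (good reduction). So `cond g f e` divides `N_A`, and
`log N_A ≤ log (cond g f 1) + B exc f + B` for `e = 1`.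

The theorem. Let `g ≥ 1`, `m = 2 g` or `2 g + 1`, `A ≥ 1`, `κ' < g / (8 g + 4) < κ`, `B ≥ 0` and `c₀`.
There are `C` and `δ > 0` such that for all `T ≥ 1` and for all `φ` with `Crit m A T φ c` the
following is true for all but `C T ^ (-δ) #(box K T)` of the `t ∈ box K T` (`Sharp`): `D ≠ 0`,

`height g f 1 + c₀ ≤ κ log (cond g f e)` for ALL `e ∈ K`, `e ≠ 0`, and
`κ' (log (cond g f 1) + B exc f) + c₀ ≤ height g f 1 - B exc f`.

So `h_F(A) ≤ κ log N_A` for all the twists of 100 per cent of the curves, and
`κ' log N_A ≤ h_F(A)` for `e = 1`: the slope `g / (8 g + 4)` is the exact one.

The proof. `D = ± (m + 1) ^ (m + 1) ∏ (t - φ(c_i))`. For all but `C T ^ (-δ) #(box K T)` of the `t`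
the numbers `t - φ(c_i)` are almost coprime, almost squarefree and not small at all the archimedean
places, so that the primes dividing `D` exactly once have a product of norm at least
`T ^ (m [K : ℚ] - η)`, and the zeros of `f` have the absolute value at most `B T ^ {1 / (m + 1)}` and
are not close to each other. The integrals `vol` are estimated in terms of the size of the zeros, from
below and from above. The lemmas of the counting were proved by helper51, helper80, helper115 and
helper163.
-/

set_option autoImplicit false

open NumberField IsDedekindDomain Finset Polynomial

namespace Pool.Agent.Results.MP_c59389_nt.RationalCriticalPoints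

open Pool.Agent.H433 Pool.Agent.H433.AC
open Pool.Agent.H433.CQ (Crit)
open Pool.Agent.H433.CR (Sharp)

open Classical in
/-- The exact slope `g / (8 g + 4)` in the inequality of Frey for almost all the curves
`e y ^ 2 = φ(x) - t` and for all `e`, uniformly for all the polynomials `φ` of degree `2 g + 1` or
`2 g + 2` with rational critical points. -/
theorem result (g m : ℕ) (hg : 1 ≤ g) (hm : m = 2 * g ∨ m = 2 * g + 1) (K : Type) [Field K]
    [NumberField K] (A : ℝ) (hA : 1 ≤ A) (κ κ' : ℝ) (hκ : (g : ℝ) / (8 * g + 4) < κ)
    (hκ' : κ' < (g : ℝ) / (8 * g + 4)) (B : ℝ) (hB : 0 ≤ B) (c₀ : ℝ) :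
    ∃ C δ : ℝ, 0 < δ ∧ ∀ T : ℕ, 1 ≤ T → ∀ (φ : (𝓞 K)[X]) (c : Fin m → 𝓞 K), Crit m A T φ c →
      (((box K T).filter fun t => ¬ Sharp g κ κ' B c₀ (φ - Polynomial.C t)).card : ℝ) ≤
        C * (T : ℝ) ^ (-δ) * (box K T).card :=
  Pool.Agent.H433.CR.sharp g m hg hm K hA hκ hκ' hB c₀

end Pool.Agent.Results.MP_c59389_nt.RationalCriticalPoints
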